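import Pool.Agent.Y674.TR.Stm

/-!
Project TR (helper674): irreducibility of `φ - x ψ ^ 2` for large `x`.
-/

set_option autoImplicit false

namespace Pool.Agent.Y248.TR

open Polynomial NumberField Pool.Agent.Y674.TR

/-- a monic complex polynomial is a product indexed by a finite type -/
theorem split (p : ℂ[X]) (hp : p.Monic) : ∃ (ι : Type) (_ : Fintype ι) (s : ι → ℂ),
    p = ∏ i, (X - C (s i)) := by
  classical
  refine ⟨p.roots.ToType, inferInstance, fun x => (x : ℂ), ?_⟩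
  have h1 := (IsAlgClosed.splits p).eq_prod_roots_of_monic hp
  conv_lhs => rw [h1]
  rw [Finset.prod, Multiset.map_univ p.roots (fun a => X - C a)]

theorem root_mem {ι : Type} [Fintype ι] (s : ι → ℂ) (z : ℂ)
    (h : (∏ i, (X - C (s i))).eval z = 0) : ∃ i, z = s i := by
  rw [eval_prod, Finset.prod_eq_zero_iff] at h
  obtain ⟨i, -, hi⟩ := h
  refine ⟨i, ?_⟩
  rw [eval_sub, eval_X, eval_C] at hi
  exact sub_eq_zero.1 hi

theorem monic_F {e : ℕ} {φ ψ : ℤ[X]} {H : ℕ} (hD : Dat e φ ψ H) (x : ℤ) :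
    (F φ ψ x).Monic := by
  unfold F
  refine hD.mon.sub_of_left ?_
  have h1 : φ.degree = ((2 * e + 1 : ℕ) : WithBot ℕ) := by
    rw [degree_eq_natDegree hD.mon.ne_zero, hD.deg]
  rw [h1]
  have h2 : (C x * ψ ^ 2).natDegree ≤ 2 * e := by
    refine (natDegree_C_mul_le _ _).trans ?_
    refine (natDegree_pow_le).trans ?_
    rw [hD.degψ]
  refine (degree_le_natDegree.trans (WithBot.coe_le_coe.2 h2)).trans_lt ?_
  exact WithBot.coe_lt_coe.2 (Nat.lt_succ_self _)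

/-- the norm argument -/
theorem small {e : ℕ} {φ ψ : ℤ[X]} {H : ℕ} (hD : Dat e φ ψ H) (x : ℤ) (p : ℚ[X])
    (hpd : p ∣ (F φ ψ x).map (Int.castRingHom ℚ)) (hpu : ¬ IsUnit p)
    (hsm : ∀ z : ℂ, (p.map (algebraMap ℚ ℂ)).eval z = 0 → ‖ev ψ z‖ < 1) : False := by
  obtain ⟨p0, hp0m, hp0, hp0p⟩ := exists_monic_irreducible_factor p hpu
  have : Fact (Irreducible p0) := ⟨hp0⟩
  have : FiniteDimensional ℚ (AdjoinRoot p0) := (AdjoinRoot.powerBasis hp0.ne_zero).finite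
  have : CharZero (AdjoinRoot p0) := charZero_of_injective_algebraMap
    (algebraMap ℚ (AdjoinRoot p0)).injective
  set K := AdjoinRoot p0 with hK
  set t : K := AdjoinRoot.root p0 with ht
  have ht0 : aeval t p0 = 0 := by
    rw [ht, aeval_def]
    exact AdjoinRoot.eval₂_root p0
  have htG : aeval t ((F φ ψ x).map (Int.castRingHom ℚ)) = 0 := by
    obtain ⟨r, hr⟩ := hp0p.trans hpd
    rw [hr, map_mul, ht0, zero_mul]
  have htF : aeval t (F φ ψ x) = 0 := by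
    have := htG
    rwa [show (Int.castRingHom ℚ) = algebraMap ℤ ℚ from rfl, aeval_map_algebraMap] at this
  have hint : IsIntegral ℤ t := ⟨F φ ψ x, monic_F hD x, htF⟩
  have hrel : aeval t φ = (x : K) * aeval t ψ ^ 2 := by
    have h1 := htF
    unfold F at h1
    rw [map_sub, map_mul, map_pow, aeval_C, sub_eq_zero] at h1
    simpa using h1
  set v : K := aeval t ψ with hv
  have hvint : IsIntegral ℤ v := by
    rw [hv]
    exact adjoin_le_integralClosure hint (aeval_mem_adjoin_singleton ℤ t)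
  have hv0 : v ≠ 0 := by
    intro h0
    rw [h0] at hrel
    obtain ⟨a, b, hab⟩ := hD.cop
    have h1 := congrArg (aeval t) hab
    rw [map_add, map_mul, map_mul, map_one, show (Int.castRingHom ℚ) = algebraMap ℤ ℚ from rfl,
      aeval_map_algebraMap, aeval_map_algebraMap, ← hv, h0, hrel] at h1
    simp at h1
  have hN0 : Algebra.norm ℚ v ≠ 0 := Algebra.norm_ne_zero_iff.2 hv0
  have hNint : IsIntegral ℤ (Algebra.norm ℚ v) := Algebra.isIntegral_norm ℚ hvint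
  obtain ⟨y, hy⟩ := IsIntegrallyClosed.isIntegral_iff.1 hNint
  have hy0 : y ≠ 0 := by
    rintro rfl
    rw [map_zero] at hy
    exact hN0 hy.symm
  have hprod := Algebra.norm_eq_prod_embeddings ℚ ℂ v
  have hσ : ∀ σ : K →ₐ[ℚ] ℂ, ‖σ v‖ < 1 := by
    intro σ
    have h1 : σ v = ev ψ (σ t) := by
      rw [hv, ev, show (Int.castRingHom ℂ) = algebraMap ℤ ℂ from rfl, eval_map_algebraMap]
      exact (aeval_algHom_apply (σ.restrictScalars ℤ) t ψ).symm
    rw [h1]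
    apply hsm
    have h2 : (p.map (algebraMap ℚ ℂ)).eval (σ t) = σ (aeval t p) := by
      rw [eval_map_algebraMap]
      exact aeval_algHom_apply σ t p
    rw [h2]
    obtain ⟨r, hr⟩ := hp0p
    rw [hr, map_mul, ht0, zero_mul, map_zero]
  have hσ0 : ∀ σ : K →ₐ[ℚ] ℂ, 0 < ‖σ v‖ := by
    intro σ
    rw [norm_pos_iff]
    exact (map_ne_zero σ).2 hv0
  have : Nonempty (K →ₐ[ℚ] ℂ) := ⟨IsAlgClosed.lift⟩
  have hlt : ∏ σ : K →ₐ[ℚ] ℂ, ‖σ v‖ < 1 := by
    have := Finset.prod_lt_prod_of_nonempty (s := (Finset.univ : Finset (K →ₐ[ℚ] ℂ)))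
      (f := fun σ => ‖σ v‖) (g := fun _ => 1) (fun σ _ => hσ0 σ) (fun σ _ => hσ σ)
      Finset.univ_nonempty
    simpa using this
  rw [← norm_prod, ← hprod, ← hy] at hlt
  have h3 : ‖(algebraMap ℚ ℂ) ((algebraMap ℤ ℚ) y)‖ = |(y : ℝ)| := by
    simp
  rw [h3] at hlt
  have h4 : (1 : ℝ) ≤ |(y : ℝ)| := by
    have : 1 ≤ |y| := Int.one_le_abs hy0
    exact_mod_cast this
  linarith

theorem irr (h1 : SZ) (h2 : ONE) : IRR := by
  intro e he
  obtain ⟨k, C0, hone⟩ := h2 e he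
  refine ⟨k + (2 * e + 2), C0 + (2 * e + 2) * 4 ^ (2 * e + 1) + 1, ?_⟩
  intro φ ψ H hD x hx
  have hH1 : (1 : ℝ) ≤ H := by exact_mod_cast hD.one
  have hHk : (1 : ℝ) ≤ (H : ℝ) ^ k := one_le_pow₀ hH1
  have hHe : (1 : ℝ) ≤ (H : ℝ) ^ (2 * e + 2) := one_le_pow₀ hH1
  have hx1 : (C0 : ℝ) * (H : ℝ) ^ k ≤ |(x : ℝ)| := by
    refine le_trans ?_ hx
    push_cast
    rw [pow_add (H : ℝ) k (2 * e + 2)]
    have h3 : (C0 : ℝ) * (H : ℝ) ^ k ≤ (C0 : ℝ) * ((H : ℝ) ^ k * (H : ℝ) ^ (2 * e + 2)) := by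
      apply mul_le_mul_of_nonneg_left _ (Nat.cast_nonneg _)
      nlinarith
    have h4 : (0 : ℝ) ≤ ((2 * e + 2) * 4 ^ (2 * e + 1) + 1) *
        ((H : ℝ) ^ k * (H : ℝ) ^ (2 * e + 2)) := by positivity
    nlinarith
  have hx2 : (2 * e + 2) * H * (4 * H : ℝ) ^ (2 * e + 1) < |(x : ℝ)| := by
    refine lt_of_lt_of_le ?_ hx
    push_cast
    rw [pow_add (H : ℝ) k (2 * e + 2)]
    have h3 : (2 * e + 2) * H * (4 * H : ℝ) ^ (2 * e + 1)
        = ((2 * e + 2) * 4 ^ (2 * e + 1)) * (H : ℝ) ^ (2 * e + 2) := by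
      rw [mul_pow]
      ring
    rw [h3]
    have h4 : (H : ℝ) ^ (2 * e + 2) ≤ (H : ℝ) ^ k * (H : ℝ) ^ (2 * e + 2) := by nlinarith
    have h5 : (0 : ℝ) ≤ (2 * e + 2) * 4 ^ (2 * e + 1) := by positivity
    have h6 : ((2 * e + 2) * 4 ^ (2 * e + 1)) * (H : ℝ) ^ (2 * e + 2)
        ≤ ((2 * e + 2) * 4 ^ (2 * e + 1)) * ((H : ℝ) ^ k * (H : ℝ) ^ (2 * e + 2)) :=
      mul_le_mul_of_nonneg_left h4 h5
    have h7 : (0 : ℝ) ≤ (C0 : ℝ) * ((H : ℝ) ^ k * (H : ℝ) ^ (2 * e + 2)) := by positivity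
    have h8 : (1 : ℝ) ≤ (H : ℝ) ^ k * (H : ℝ) ^ (2 * e + 2) := by nlinarith
    linarith
  have hB0 : (0 : ℝ) ≤ (2 * e + 2) * H * (4 * H : ℝ) ^ (2 * e + 1) := by positivity
  have hGm : ((F φ ψ x).map (Int.castRingHom ℚ)).Monic := (monic_F hD x).map _
  have hdeg : (F φ ψ x).natDegree = 2 * e + 1 := by
    unfold F
    rw [natDegree_sub_eq_left_of_natDegree_lt, hD.deg]
    rw [hD.deg]
    refine lt_of_le_of_lt ((natDegree_C_mul_le _ _).trans natDegree_pow_le) ?_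
    rw [hD.degψ]
    omega
  have hmapC : ((F φ ψ x).map (Int.castRingHom ℚ)).map (algebraMap ℚ ℂ)
      = (F φ ψ x).map (Int.castRingHom ℂ) := by
    rw [Polynomial.map_map,
      RingHom.ext_int ((algebraMap ℚ ℂ).comp (Int.castRingHom ℚ)) (Int.castRingHom ℂ)]
  -- the values of `ψ` at the small roots
  have hval : ∀ z : ℂ, ((F φ ψ x).map (Int.castRingHom ℂ)).eval z = 0 → ‖z‖ < 4 * H →
      ‖ev ψ z‖ < 1 := by
    intro z hz hz4
    rcases (h1 e he φ ψ H hD).2 x z hz with h | h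
    · by_contra hge
      push Not at hge
      have h3 : 1 ≤ ‖ev ψ z‖ ^ 2 := one_le_pow₀ hge
      have h4 : |(x : ℝ)| ≤ ‖ev ψ z‖ ^ 2 * |(x : ℝ)| := by
        nlinarith [abs_nonneg (x : ℝ)]
      linarith [h.2]
    · exact absurd h.1 (not_le.2 hz4)
  rw [hGm.irreducible_iff_natDegree]
  refine ⟨?_, ?_⟩
  · intro h
    have := congrArg natDegree h
    rw [natDegree_one, (monic_F hD x).natDegree_map, hdeg] at this
    omega
  · intro p q hp hq hpq
    by_contra hcon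
    push Not at hcon
    obtain ⟨hp0, hq0⟩ := hcon
    obtain ⟨ι, fι, s, hs⟩ := split (p.map (algebraMap ℚ ℂ)) (hp.map _)
    obtain ⟨κ, fκ, r, hr⟩ := split (q.map (algebraMap ℚ ℂ)) (hq.map _)
    have hFC : (F φ ψ x).map (Int.castRingHom ℂ) = ∏ i : ι ⊕ κ, (X - C (Sum.elim s r i)) := by
      rw [Fintype.prod_sum_type, ← hmapC, ← hpq, Polynomial.map_mul, hs, hr]
      simp
    obtain ⟨i0, hi0, hsmall⟩ := hone φ ψ H hD x hx1 (ι ⊕ κ) (Sum.elim s r) hFC
    rcases i0 with i0 | i0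
    · refine small hD x q ⟨p, by rw [← hpq, mul_comm]⟩
        (not_isUnit_of_natDegree_pos q (Nat.pos_of_ne_zero hq0)) fun z hz => ?_
      apply hval
      · rw [← hmapC, ← hpq, Polynomial.map_mul, eval_mul, hz, mul_zero]
      · rw [hr] at hz
        obtain ⟨j, rfl⟩ := root_mem r z hz
        exact hsmall (Sum.inr j) (by simp)
    · refine small hD x p ⟨q, hpq.symm⟩
        (not_isUnit_of_natDegree_pos p (Nat.pos_of_ne_zero hp0)) fun z hz => ?_
      apply hval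
      · rw [← hmapC, ← hpq, Polynomial.map_mul, eval_mul, hz, zero_mul]
      · rw [hs] at hz
        obtain ⟨j, rfl⟩ := root_mem s z hz
        exact hsmall (Sum.inl j) (by simp)

end Pool.Agent.Y248.TR
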